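import Pool.Agent.Run7.h634.RV.Open

/-!
# Injectivity of the Abel-Jacobi maps of open varieties: affine rational varieties suffice

Denote by `Q1(V, k)` the injectivity of the Abel-Jacobi map on `CH^k_hom(V; ℚ)` for a smooth
quasi-projective variety `V` over `ℚ̄`.

**Theorem.**

1. For all `k` and `M`: `Q1(V, k)` is true for all `V` if it is true for the smooth affine varieties of
   dimension at least `M`.
2. For all `k < k'` and `M`: `Q1(V, k)` is true for all `V` if `Q1(W, k')` is true for the smooth affine
   rational varieties `W` of dimension at least `M`.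
3. Let `S` be an infinite set of numbers and `f` any function. Then `Q1(V, k)` is true for all `V` and `k`
   if and only if `Q1(W, k)` is true for all `k ∈ S` and all smooth affine rational varieties `W` with
   `dim W ≥ f(k)`.
4. Let `T` be a set of pairs which contains for every `N` a pair `(k, i)` with `k ≥ N` and `i ≥ N`. Then
   `Q1(V, k)` is true for all `V` and `k` if and only if it is true for all smooth quasi-projective
   rational varieties `W` and `k` with `(k, dim W - k)` in `T`.

## Proof

Let `V` be a smooth quasi-projective variety. It is closed in an open subset `U` of a projective space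
of dimension `dim V + c`, for all large `c`. The blow-up `W` of `U` along `V` is rational, and
`CH^k(V)` is a direct summand of `CH^(k+j)(W)` for `1 ≤ j < c`, compatibly with the mixed Hodge
structures on the cohomology and so with the Abel-Jacobi maps. By Jouanolou's construction there is a
torsor under a vector bundle on `W` which is an affine variety; it is rational, and has the same Chow
groups and cohomology. We can multiply it by an affine space.

In the statement `Theory` contains the groups and maps of the question, and `Facts` these three known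
facts.
-/

set_option autoImplicit false

universe u v w t

namespace Pool.Agent.Results.MP_537ea0_ag.AffineRationalVarieties

open Pool.Agent.Run7.H634.OpenAJ

/-- **Affine rational varieties suffice for the injectivity of the Abel-Jacobi maps.** The four parts
are those of the theorem above: (1) affine varieties of large dimension suffice in each codimension;
(2) affine rational varieties of large dimension in one larger codimension suffice; (3) an infinite
set of codimensions, affine rational varieties `W`, `dim W ≥ f(k)`; (4) rational varieties, with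
`(k, dim W - k)` in a cofinal set of pairs. -/
theorem result {𝒯 : Theory.{u, v, w, t}} (hF : Facts 𝒯) :
    (∀ k M : ℕ, (∀ W : 𝒯.Var, 𝒯.Affine W → M ≤ 𝒯.dim W → Injective 𝒯 W k) →
      ∀ V : 𝒯.Var, Injective 𝒯 V k) ∧
    (∀ k k' M : ℕ, k < k' →
      (∀ W : 𝒯.Var, 𝒯.Affine W → 𝒯.Rational W → M ≤ 𝒯.dim W → Injective 𝒯 W k') →
      ∀ V : 𝒯.Var, Injective 𝒯 V k) ∧
    (∀ (S : ℕ → Prop) (f : ℕ → ℕ), (∀ N : ℕ, ∃ k : ℕ, N ≤ k ∧ S k) →
      ((∀ (V : 𝒯.Var) (k : ℕ), Injective 𝒯 V k) ↔ ∀ (W : 𝒯.Var) (k : ℕ), S k →
        𝒯.Affine W → 𝒯.Rational W → f k ≤ 𝒯.dim W → Injective 𝒯 W k)) ∧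
    (∀ T : ℕ → ℕ → Prop, (∀ N : ℕ, ∃ m i : ℕ, N ≤ m ∧ N ≤ i ∧ T m i) →
      ((∀ (V : 𝒯.Var) (k : ℕ), Injective 𝒯 V k) ↔ ∀ (m i : ℕ) (W : 𝒯.Var), T m i →
        𝒯.Rational W → 𝒯.dim W = m + i → Injective 𝒯 W m)) :=
  main hF

end Pool.Agent.Results.MP_537ea0_ag.AffineRationalVarieties
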