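import Mathlib
import Pool.Agent.Run7.h508.CY.Cyc

/-!
# Kernels on the Chow groups over the algebraic closure, and everywhere unramified extensions

`V` is a quasi-projective variety over a totally complex number field `k`: the points of the
projective space with `F = 0` for all `F ∈ I`, and not `G = 0` for all `G ∈ J`. The Chow groups
`CH_r(V_Ω)_ℚ` over the algebraic closure `Ω` of `k` and the action of the automorphisms of `Ω` over
`k` are constructed in `Pool.Agent.Run7.h508.CY.Cyc`: `CH Ω I J r` is the group of the cycles of
dimension `r` (homogeneous prime ideals) modulo the differences of two fibres, with their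
multiplicities, of the subvarieties of `X × 𝔸¹` which dominate the line.

Let `N` be a subspace of `CH_r(V_Ω)_ℚ`, for example the kernel of the rational Abel-Jacobi map on the
homologically trivial classes, for a given embedding `Ω ⊂ ℂ`. The sum `conjugates N` of its conjugates
is stable under the Galois group; it is zero if and only if `N` is zero. We show that `N = 0` if and
only if no nonzero class in `conjugates N` is defined over `k` (fixed by the automorphisms of `Ω` over
`k`), and these classes do not grow in the everywhere unramified Galois extensions `L/K` of prime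
degree, `K ⊇ k`, completely split above a given integer `m > 0`. The spaces of the classes in
`CH_r(V_Ω)_ℚ` defined over the number fields `K ⊇ k` are all finite-dimensional if and only if this
holds for `K = k` and the growth in these unramified extensions is finite-dimensional.
-/

set_option autoImplicit false
set_option linter.unusedSectionVars false

namespace Pool.Agent.Results.MP_537ea0_ag.CyclesOverUnramifiedExtensions

open NumberField Pool.Agent.Run7.h508.BR Pool.Agent.Run7.h508.CY

/-- All inertia groups of `L/K` are trivial, and the decomposition groups of the primes above `m`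
are trivial. -/
def UnramifiedSplit (m : ℕ) (K L : Type) [Field K] [Field L] [Algebra K L] : Prop :=
  ∀ P : Ideal (𝓞 L), P.IsMaximal → ∀ g : L ≃ₐ[K] L,
    ((∀ x y : 𝓞 L, (y : L) = g x → y - x ∈ P) → g = 1) ∧
    ((m : 𝓞 L) ∈ P → (∀ x y : 𝓞 L, (y : L) = g x → (y ∈ P ↔ x ∈ P)) → g = 1)

section cases

variable {k : Type} [Field k] [NumberField k] {Ω : Type} [Field Ω] [Algebra k Ω] {n : ℕ}
  {I J : Set (Crd k n)} {r : ℕ}

/-- The classes in `T` which are defined over `K`: fixed by the automorphisms of `Ω` over `k` which
fix the image of `j : K → Ω`. -/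
noncomputable def definedOver (T : Submodule ℚ (Quo Ω I J r)) {K : Type} [Field K] [Algebra k K]
    (j : K →ₐ[k] Ω) : Submodule ℚ (Quo Ω I J r) := tfix (chRep I J r) T j

/-- The sum of the conjugates of the subspace `N`. -/
noncomputable def conjugates (N : Submodule ℚ (Quo Ω I J r)) : Submodule ℚ (Quo Ω I J r) :=
  ⨆ σ : Ω ≃ₐ[k] Ω, N.map (chRep I J r σ)

/-- No growth in the everywhere unramified extensions `L/K` of prime degree, split above `m`. -/
def UnramifiedNoGrowth (T : Submodule ℚ (Quo Ω I J r)) (m : ℕ) : Prop :=
  ∀ (K L : Type) [Field K] [NumberField K] [Field L] [NumberField L] [Algebra k K] [Algebra K L]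
    [Algebra k L] [IsScalarTower k K L] [IsGalois K L], (Module.finrank K L).Prime →
    UnramifiedSplit m K L → ∀ j : L →ₐ[k] Ω,
    definedOver T j ≤ definedOver T (j.comp (IsScalarTower.toAlgHom k K L))

/-- Finite-dimensional growth in the everywhere unramified extensions `L/K` of prime degree, split
above `m`. -/
def UnramifiedFiniteGrowth (T : Submodule ℚ (Quo Ω I J r)) (m : ℕ) : Prop :=
  ∀ (K L : Type) [Field K] [NumberField K] [Field L] [NumberField L] [Algebra k K] [Algebra K L]
    [Algebra k L] [IsScalarTower k K L] [IsGalois K L], (Module.finrank K L).Prime →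
    UnramifiedSplit m K L → ∀ j : L →ₐ[k] Ω, ∃ W : Submodule ℚ (Quo Ω I J r), W.FG ∧
    definedOver T j ≤ definedOver T (j.comp (IsScalarTower.toAlgHom k K L)) ⊔ W

end cases

section proof

lemma unrSplit_of {m : ℕ} {K L : Type} [Field K] [Field L] [Algebra K L]
    (h : UnrSplit m K L) : UnramifiedSplit m K L := by
  intro P hP g
  refine ⟨fun h1 => (h P hP).1 g fun x => h1 x _ rfl, fun hm h1 => (h P hP).2 hm g fun x =>
    h1 x _ rfl⟩

variable {k : Type} [Field k] [NumberField k] {Ω : Type} [Field Ω] [Algebra k Ω]
  [IsAlgClosed Ω] [Algebra.IsAlgebraic k Ω] {n : ℕ} {I J : Set (Crd k n)} {r : ℕ}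

lemma tNoGrow_of {T : Submodule ℚ (Quo Ω I J r)} {m : ℕ}
    (h : UnramifiedNoGrowth T m) : TNoGrow (chRep I J r) T m :=
  fun K L _ _ _ _ _ _ _ _ _ _ hp hu j => h K L hp (unrSplit_of hu) j

lemma tFinGrow_of {T : Submodule ℚ (Quo Ω I J r)} {m : ℕ}
    (h : UnramifiedFiniteGrowth T m) : TFinGrow (chRep I J r) T m :=
  fun K L _ _ _ _ _ _ _ _ _ _ hp hu j => h K L hp (unrSplit_of hu) j

lemma le_conjugates (N : Submodule ℚ (Quo Ω I J r)) : N ≤ conjugates N := by
  intro v hv
  have h2 : chRep I J r 1 v = v := by
    rw [map_one]
    exact Module.End.one_apply v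
  have h1 : chRep I J r 1 v ∈ N.map (chRep I J r 1) := Submodule.mem_map_of_mem hv
  rw [h2] at h1
  exact Submodule.mem_iSup_of_mem (1 : Ω ≃ₐ[k] Ω) h1

lemma conjugates_stable (N : Submodule ℚ (Quo Ω I J r)) (σ : Ω ≃ₐ[k] Ω) (v : Quo Ω I J r)
    (hv : v ∈ conjugates N) : chRep I J r σ v ∈ conjugates N := by
  have h1 : conjugates N ≤ (conjugates N).comap (chRep I J r σ) := by
    unfold conjugates
    refine iSup_le fun τ => ?_
    intro u hu
    rw [Submodule.mem_map] at hu
    obtain ⟨w, hw, hwu⟩ := hu
    have h2 : chRep I J r σ u = chRep I J r (σ * τ) w := by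
      rw [map_mul, Module.End.mul_apply, hwu]
    rw [Submodule.mem_comap, h2]
    exact Submodule.mem_iSup_of_mem (σ * τ) (Submodule.mem_map_of_mem hw)
  exact h1 hv

end proof

/-- **Main theorem.** Let `k` be a totally complex number field with algebraic closure `Ω`, let `V`
be the quasi-projective variety given by `I` and `J`, let `r ≥ 0` and `m > 0`.

* For every subspace `N` of `CH_r(V_Ω)_ℚ` (for example the kernel of the rational Abel-Jacobi map):
  `N = 0` if and only if no nonzero class in `conjugates N` is defined over `k`, and `conjugates N`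
  does not grow in the everywhere unramified Galois extensions `L/K` of prime degree, `K ⊇ k`, split
  above `m`. If there is no growth in these extensions, then there is none in any extension.
* The spaces of the classes in `CH_r(V_Ω)_ℚ` which are defined over `K` are finite-dimensional for all
  number fields `K ⊇ k` if and only if this holds for `K = k`, and the growth in these unramified
  extensions is finite-dimensional. -/
theorem result (k : Type) [Field k] [NumberField k] (hk : IsTotallyComplex k) (Ω : Type) [Field Ω]
    [Algebra k Ω] [IsAlgClosed Ω] [Algebra.IsAlgebraic k Ω] (n : ℕ) (I J : Set (Crd k n)) (r : ℕ)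
    (m : ℕ) (hm : m ≠ 0) :
    (∀ N : Submodule ℚ (Quo Ω I J r), N ≤ CH Ω I J r →
      (N = ⊥ ↔ definedOver (conjugates N) (Algebra.ofId k Ω) = ⊥ ∧
        UnramifiedNoGrowth (conjugates N) m) ∧
      (UnramifiedNoGrowth (conjugates N) m → ∀ (K L : Type) [Field K] [NumberField K] [Field L]
        [NumberField L] [Algebra k K] [Algebra k L] (f : K →ₐ[k] L) (j : L →ₐ[k] Ω),
        definedOver (conjugates N) j = definedOver (conjugates N) (j.comp f))) ∧
    ((∀ (K : Type) [Field K] [NumberField K] [Algebra k K] (j : K →ₐ[k] Ω),
        (definedOver (CH Ω I J r) j).FG) ↔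
      (definedOver (CH Ω I J r) (Algebra.ofId k Ω)).FG ∧
        UnramifiedFiniteGrowth (CH Ω I J r) m) := by
  have hcx : ∀ (K : Type) [Field K] [NumberField K] [Algebra k K], IsTotallyComplex K :=
    fun K _ _ _ => complex_above hk
  refine ⟨fun N _ => ⟨⟨fun h => ?_, fun h => ?_⟩, fun h K L _ _ _ _ _ _ f j => ?_⟩,
    ⟨fun h => ⟨?_, ?_⟩, ?_⟩⟩
  · have h1 : ∀ c ∈ conjugates N, c = 0 := by
      intro c hc
      have h2 : conjugates N ≤ ⊥ := by
        refine iSup_le fun σ => ?_
        rw [h, Submodule.map_bot]
      exact h2 hc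
    refine ⟨?_, fun K L _ _ _ _ _ _ _ _ _ _ _ j c hc => ?_⟩
    · rw [eq_bot_iff]
      intro c hc
      rw [h1 c hc.1]
      exact Submodule.zero_mem _
    · rw [h1 c hc.1]
      exact Submodule.zero_mem _
  · have h1 : conjugates N = ⊥ := t_vanish (chRep I J r) (conjugates_stable N) hm hk
      (chRep_disc I J r) h.1 (tNoGrow_of h.2)
    rw [eq_bot_iff, ← h1]
    exact le_conjugates N
  · exact t_noGrow (chRep I J r) (conjugates_stable N) hm (tNoGrow_of h) K L (hcx K) f j
  · exact h k (Algebra.ofId k Ω)
  · intro K L _ _ _ _ _ _ _ _ _ hp hu j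
    exact ⟨definedOver (CH Ω I J r) j, h L j, le_sup_right⟩
  · intro h K _ _ _ j
    refine t_finite (chRep I J r) (CH_stable I J r) hm (tFinGrow_of h.2) k K hk
      (Algebra.ofId k K) j ?_
    have h2 : j.comp (Algebra.ofId k K) = Algebra.ofId k Ω := Subsingleton.elim _ _
    rw [h2]
    exact h.1

end Pool.Agent.Results.MP_537ea0_ag.CyclesOverUnramifiedExtensions
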