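import Pool.Agent.Run7.h848.XG.Open

/-!
# The intersection of the filtration, and Abel–Jacobi maps of open varieties

Let `X` be a smooth projective variety over `ℚ̄` (or over `ℂ`) which satisfies the sign conjecture `C⁺` (the
projector to the even cohomology is algebraic: curves, surfaces, abelian varieties, complete
intersections, products of these, …), `b` the sum of its Betti numbers, and `ρ(n)` the rank of the group
of the cycles of all codimensions on `X ^ n` modulo numerical equivalence (`ρ(n) ≤ b ^ n`).

**Theorem 1.** Let `F` be a filtration of the Chow groups as in the known results listed with the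
question: `F ^ 1` the homologically trivial cycles, `F ^ i · F ^ j ⊆ F ^ (i + j)`, stable under push-forward
and pull-back, `F ^ (k + 1) CH ^ k = F ^ (k + 2) CH ^ k = …`. Let `δ(n)` be the dimension of
`(⋂ F ^ i) CH^*(X ^ n; ℚ)`, `δ'(n) ≤ δ(n)` the dimension of its image modulo smash-nilpotent cycles. (If
Q1 is true then `δ(n) = 0`.)

(1) Either `X` is finite-dimensional in the sense of Kimura, or there is a real number `c > b` with
`δ'(n) ≥ c ^ n` for all large `n`. More precisely, if `y` is a homologically trivial correspondence from
`X ^ s` to itself which is not nilpotent, then for ALL `n ≥ 0`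

  `δ'(2 s (n + 1)) ≥ ∑ i ≤ n, (n choose i) ρ(2 s (n - i)) ≥ (b ^ (2 s) + 1) ^ n / (s n + 1) ^ (b ^ 2)`.

(2) `δ(n) / ρ(n)` converges for `n → ∞` to an element of `{0, 1, 2, …, ∞}`, which is `0` if and only if
`(⋂ F ^ i) CH^*(X ^ n; ℚ) = 0` for all `n`, and is `∞` if `X` is not finite-dimensional.

(3) If `(⋂ F ^ i) CH^*(X ^ s; ℚ) ≠ 0` for one `s` then for ALL `n` with
`2 n ≥ 128 (s + 1) ^ 2 b ^ (2 s + 6)`: `δ(2 n) ≥ ρ(2 n) / 2` and `δ(2 n) ≥ b ^ (2 n) / (2 (n + 1) ^ (b ^ 2))`.

**Theorem 2.** Let `V` be ANY smooth quasi-projective variety over `ℚ̄`, and `κ(n)` the dimension of the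
sum over all `k` of the kernels of the maps `Φ_{k,ℚ}` of the question for `V × X ^ n`.

(1) `κ(n) / ρ(n)` converges for `n → ∞` to a limit `N` in `{0, 1, 2, …, ∞}`, and `N = 0` if and only if all maps
`Φ_{k,ℚ}` are injective for all products `V × X ^ n`.

(2) If `N` is finite then `X` is finite-dimensional in the sense of Kimura, and each composition of
`N + 2` homologically trivial correspondences between powers of `X` is zero. If `X` is not
finite-dimensional then there is `c > b` with `κ(n) ≥ c ^ n` for all large `n`.

(3) If one `Φ_{k,ℚ}` is not injective for one product `V × X ^ s` then for ALL `n` with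
`2 n ≥ 128 (s + 1) ^ 2 b ^ (2 s + 6)`: `κ(2 n) ≥ ρ(2 n) / 2` and `κ(2 n) ≥ b ^ (2 n) / (2 (n + 1) ^ (b ^ 2))`.

It is well known that Q1 implies that `X` is finite-dimensional and that the composition of two
homologically trivial correspondences is zero. Nothing is assumed here on the finiteness of the
Chow groups, nor on cycles on `V`.

The setting. `C` is the category of Chow motives over `ℚ̄` with the groups `CH^*(Y × Z; ℚ)` (all
codimensions) as morphisms, `T = h(X)`, `tp T n = h(X ^ n)`, `R` the singular cohomology with
coefficients extended to an algebraically closed field. A family `S` of subspaces of the spaces of cycles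
(`IsInf` in `Pool/Agent/Run7/h848/XG/OpenDefs.lean`) is stable under correspondences and contains for each `Z`
all compositions of `k(Z)` homologically trivial correspondences; `S = ⋂ F ^ i` is such a family with
`k(Z) = dim Z + 1`. The structure `OpenAJ` (in the same file) records what is used on
the maps `Φ` for `V × Y`: they are linear, compatible with the correspondences of the second factor, and
homologically trivial correspondences map all of `CH^*(V × Y; ℚ)` into the homologically trivial classes
and act as zero on `J^*(V × Y)`, since they do so on the cohomology of `V × Y`. The exterior product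
`CH^*(Y; ℚ) → CH^*(V × Y; ℚ)` with `V` is injective since `V` has a rational point.

Proof of (1) of Theorem 1. If `y` is not algebraic over `ℚ` the powers `y ^ j`, `j ≥ k`, are infinitely
many independent elements of `⋂ F ^ i`. Otherwise a multiple `p` of `y` is an idempotent different from
`0` (Fitting). Let `P = X ^ s × X ^ s` and `z` the cycle `p` on `P`; since `p = p ^ k` for all `k` it is in
`⋂ F ^ i`. The motive `P` is the sum of `A` and `B`, where `B` is the image of `1 × p`, with `z` in `B`. In a
product of `n` copies of `P` with `i` factors `B` we insert `z` into these factors and arbitrary cycles in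
the product of the others, and `z` into one more factor `P`; these cycles are in `⋂ F ^ i`, and they are
independent modulo numerical equivalence and smash-nilpotence, by contractions, since `p ∘ ⋯ ∘ p = p`.
In Theorem 2 the cycles `α` on `X ^ n` with `V × α` in the kernel of `Φ` form a family as in Theorem 1.
The law and the gap are those of `N64/AF` of the starting tree, for the functors of the kernels.
-/

set_option autoImplicit false

open CategoryTheory MonoidalCategory Filter
open Pool.Agent.Y112.SR Pool.Agent.Y112.KD Pool.Agent.N64.AF Pool.Agent.Run7.h848.XG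
open scoped ENNReal

namespace Pool.Agent.Results.MP_537ea0_ag.DivisibleCycles

universe v u w x

/-- The intersection of the filtration on the powers of a variety, and the kernels of the
Abel–Jacobi maps of the products of an open variety with these powers. -/
theorem result {C : Type u} [Category.{v} C] [Preadditive C] [MonoidalCategory C]
    [MonoidalPreadditive C] [SymmetricCategory C] [RightRigidCategory C]
    [Linear ℚ C] [MonoidalLinear ℚ C] [IsIdempotentComplete C]
    {K : Type w} [Field K] [IsAlgClosed K] [Algebra ℚ K] {R : SuperRealisation C K}
    {T : C} [ExactPairing T T] (h : IsPow ℚ R T) :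
    ((Pool.Agent.R905.IsKimuraFinite T ∨ ∃ c : ℝ, (bt R T : ℝ) < c ∧
        ∀ S : ∀ Z : C, Submodule ℚ (𝟙_ C ⟶ Z), IsInf R S →
          Fast c (fun n => deepDim S (tp T n))) ∧
      (∀ S : ∀ Z : C, Submodule ℚ (𝟙_ C ⟶ Z), IsInf R S → InfLarge R T S) ∧
      ∀ m n : ℕ, (bt R T ^ (2 * m) + 1) ^ n ≤ (m * n + 1) ^ (bt R T ^ 2) * bsum ℚ T m n) ∧
    ∀ A : OpenAJ.{v, u, w, 0, x} h.real, A.Large T :=
  ⟨⟨(inf_main h).1, (inf_main h).2, sum_ge h⟩, fun A => open_main h A⟩

end Pool.Agent.Results.MP_537ea0_ag.DivisibleCycles
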