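import Pool.Agent.Run7.h780.TW.Open
import Pool.Agent.Run7.h780.TW.Stm3

/-!
# Points of products of punctured elliptic curves over the algebraic numbers

Let `V = (E₁ - 0) × ⋯ × (E_r - 0)`, where `E₁, …, E_r` are elliptic curves over `ℚ̄` and `r ≥ 2`.  This is a
smooth affine variety of dimension `r`, so `H^{2r}(V)` and `H^{2r-1}(V)` are zero, and the question is
whether `CH^r(V; ℚ) = 0`.  The class of a point `x = (x₁, …, x_r)` in `CH^r(V)` is multilinear in the
coordinates.  We find, for every elliptic curve `E(a₁, b₁)` over `ℚ̄` and every point `P₁` of it, subgroups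
`Λ_E` of `E(ℚ̄)` for all elliptic curves `E` over `ℚ̄` at once, such that `P₁` is in `Λ_{E(a₁, b₁)}`, all
`Λ_E` have infinite rank and contain all the torsion points, and such that for all `E₁, …, E_r` two points
`x`, `y` have the same class in `CH^r(V)` (with the class zero for the points which are not in `V`) if one
coordinate of `x` is in `Λ` and is the same as that of `y`, and if all the differences of the other
coordinates are in `Λ`.  In particular the class of `x` is zero if two of its coordinates are in `Λ`.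
-/

set_option autoImplicit false

namespace Pool.Agent.Results.MP_537ea0_ag.PointsOfAffineProducts

open Pool.Agent.Run7.h780.ZS

open scoped Classical in
theorem result (a₁ b₁ : AlgebraicClosure ℚ) (h₁ : 4 * a₁ ^ 3 + 27 * b₁ ^ 2 ≠ 0) (P₁ : Pt a₁ b₁) :
    ∃ Λ : (a b : AlgebraicClosure ℚ) → AddSubgroup (Pt a b), P₁ ∈ Λ a₁ b₁ ∧
      (∀ a b, 4 * a ^ 3 + 27 * b ^ 2 ≠ 0 →
        ∃ Q : ℕ → Pt a b, LinearIndependent ℤ Q ∧ ∀ n, Q n ∈ Λ a b) ∧
      (∀ a b, ∀ (T : Pt a b) (n : ℕ), n ≠ 0 → n • T = 0 → T ∈ Λ a b) ∧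
      ∀ (r : ℕ) (a b : Fin r → AlgebraicClosure ℚ), (∀ i, 4 * a i ^ 3 + 27 * b i ^ 2 ≠ 0) →
        ∀ (x y : (i : Fin r) → Pt (a i) (b i)) (i₀ : Fin r), x i₀ = y i₀ →
          x i₀ ∈ Λ (a i₀) (b i₀) → (∀ i, x i - y i ∈ Λ (a i) (b i)) →
            TrivialOnOpen a b (Finsupp.single x 1 - Finsupp.single y 1) := by
  obtain ⟨Λ, h1, h2, h3, h4⟩ := Pool.Agent.Run7.h780.TW.system_open P₁
    (mul_ne_zero two_ne_zero h₁)
  exact ⟨Λ, h1, fun a b h => h2 a b (mul_ne_zero two_ne_zero h), h3,
    fun r a b h => h4 r a b fun i => mul_ne_zero two_ne_zero (h i)⟩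

end Pool.Agent.Results.MP_537ea0_ag.PointsOfAffineProducts
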